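import Mathlib

set_option autoImplicit false

namespace Pool.Agent.H2.Sturm

/-- Distance to the nearest integer. -/
noncomputable def nd (x : ℝ) : ℝ := |x - round x|

lemma nd_le (x : ℝ) (z : ℤ) : nd x ≤ |x - z| := round_le x z

lemma nd_nonneg (x : ℝ) : 0 ≤ nd x := abs_nonneg _

lemma nd_le_half (x : ℝ) : nd x ≤ 1 / 2 := abs_sub_round x

lemma nd_pos {θ : ℝ} (hθ : Irrational θ) {i : ℕ} (hi : 0 < i) : 0 < nd (i * θ) := by
  have h : Irrational ((i : ℝ) * θ) := by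
    have := hθ.natCast_mul (m := i) (by omega)
    simpa using this
  have h2 : (i : ℝ) * θ - round ((i : ℝ) * θ) ≠ 0 := by
    intro h0
    exact h ⟨(round ((i : ℝ) * θ) : ℤ), by push_cast; linarith⟩
  exact abs_pos.mpr h2

lemma exists_sep {θ : ℝ} (hθ : Irrational θ) (T : ℕ) :
    ∃ δ : ℝ, 0 < δ ∧ ∀ i : ℕ, 0 < i → i ≤ T → δ ≤ nd (i * θ) := by
  induction T with
  | zero => exact ⟨1, one_pos, fun i hi hi' => by omega⟩
  | succ T ih =>
    obtain ⟨δ, hδ, h⟩ := ih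
    refine ⟨min δ (nd ((T + 1 : ℕ) * θ)), lt_min hδ (nd_pos hθ (Nat.succ_pos T)), ?_⟩
    intro i hi hi'
    rcases Nat.lt_or_ge i (T + 1) with h1 | h1
    · exact (min_le_left _ _).trans (h i hi (by omega))
    · have : i = T + 1 := by omega
      subst this
      exact min_le_right _ _

lemma exists_small (θ : ℝ) {δ : ℝ} (hδ : 0 < δ) : ∃ k : ℕ, 0 < k ∧ nd (k * θ) < δ := by
  obtain ⟨n, hn⟩ := exists_nat_gt (1 / δ)
  have hn0 : 0 < n := by
    have : (0 : ℝ) < n := lt_trans (by positivity) hn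
    exact_mod_cast this
  obtain ⟨k, hk0, hkn, hk⟩ := Real.exists_nat_abs_mul_sub_round_le θ hn0
  refine ⟨k, hk0, lt_of_le_of_lt hk ?_⟩
  rw [div_lt_iff₀ (by positivity)]
  rw [div_lt_iff₀ hδ] at hn
  nlinarith

lemma exists_best {θ : ℝ} (hθ : Irrational θ) (M : ℕ) :
    ∃ q : ℕ, M < q ∧ ∀ i : ℕ, 0 < i → i < q → nd (q * θ) < nd (i * θ) := by
  classical
  obtain ⟨δ, hδ, h⟩ := exists_sep hθ M
  have hex := exists_small θ hδ
  obtain ⟨hq0, hq⟩ := Nat.find_spec hex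
  refine ⟨Nat.find hex, ?_, ?_⟩
  · by_contra hle
    push Not at hle
    exact absurd (h _ hq0 hle) (not_le.mpr hq)
  · intro i hi hiq
    have := Nat.find_min hex hiq
    push Not at this
    exact lt_of_lt_of_le hq (this hi)

/-- Closeness of a bounded forward translate. -/
lemma exists_close {θ : ℝ} (hθ : Irrational θ) {δ : ℝ} (hδ : 0 < δ) :
    ∃ K : ℕ, ∀ x y : ℝ, ∃ k : ℕ, k ≤ K ∧ ∃ h : ℤ, |x + k * θ - y - h| < δ := by
  obtain ⟨k0, hk0, hk⟩ := exists_small θ hδ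
  have hpos := nd_pos hθ hk0
  set p : ℤ := round ((k0 : ℝ) * θ) with hp
  set e : ℝ := (k0 : ℝ) * θ - p with he
  have hne : nd ((k0 : ℝ) * θ) = |e| := rfl
  rw [hne] at hpos hk
  refine ⟨k0 * ⌈1 / |e|⌉₊, ?_⟩
  intro x y
  rcases lt_or_gt_of_ne (abs_pos.mp hpos) with h0 | h0
  · -- e < 0
    have hae : |e| = -e := abs_of_neg h0
    set u : ℝ := (x - y) - ⌊x - y⌋ with hu
    have hu0 : 0 ≤ u := Int.fract_nonneg _
    have hu1 : u < 1 := Int.fract_lt_one _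
    set i : ℕ := ⌊u / |e|⌋₊ with hi
    have hi1 : (i : ℝ) ≤ u / |e| := Nat.floor_le (by positivity)
    have hi2 : u / |e| < i + 1 := Nat.lt_floor_add_one _
    rw [le_div_iff₀ hpos] at hi1
    rw [div_lt_iff₀ hpos] at hi2
    refine ⟨k0 * i, ?_, ⌊x - y⌋ + i * p, ?_⟩
    · apply Nat.mul_le_mul_left
      have : (i : ℝ) ≤ (⌈1 / |e|⌉₊ : ℝ) := by
        calc (i : ℝ) ≤ 1 / |e| := by
              rw [le_div_iff₀ hpos]; nlinarith
          _ ≤ _ := Nat.le_ceil _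
      exact_mod_cast this
    · have : x + ((k0 * i : ℕ) : ℝ) * θ - y - ((⌊x - y⌋ + i * p : ℤ) : ℝ) = u - i * |e| := by
        push_cast
        rw [hae, he, hu]; ring
      rw [this, abs_lt]
      constructor <;> nlinarith
  · -- e > 0
    have hae : |e| = e := abs_of_pos h0
    set u : ℝ := ⌈x - y⌉ - (x - y) with hu
    have hu0 : 0 ≤ u := by have := Int.le_ceil (x - y); linarith
    have hu1 : u < 1 := by have := Int.ceil_lt_add_one (x - y); linarith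
    set i : ℕ := ⌊u / |e|⌋₊ with hi
    have hi1 : (i : ℝ) ≤ u / |e| := Nat.floor_le (by positivity)
    have hi2 : u / |e| < i + 1 := Nat.lt_floor_add_one _
    rw [le_div_iff₀ hpos] at hi1
    rw [div_lt_iff₀ hpos] at hi2
    refine ⟨k0 * i, ?_, ⌈x - y⌉ + i * p, ?_⟩
    · apply Nat.mul_le_mul_left
      have : (i : ℝ) ≤ (⌈1 / |e|⌉₊ : ℝ) := by
        calc (i : ℝ) ≤ 1 / |e| := by
              rw [le_div_iff₀ hpos]; nlinarith
          _ ≤ _ := Nat.le_ceil _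
      exact_mod_cast this
    · have : x + ((k0 * i : ℕ) : ℝ) * θ - y - ((⌈x - y⌉ + i * p : ℤ) : ℝ) = -(u - i * |e|) := by
        push_cast
        rw [hae, he, hu]; ring
      rw [this, abs_neg, abs_lt]
      constructor <;> nlinarith

/-- The maximum of the fractional parts is attained late. -/
lemma argmax_large {θ : ℝ} (hθ : Irrational θ) (ρ : ℝ) (M : ℕ) :
    ∃ N₀ : ℕ, ∀ N, N₀ ≤ N → ∀ B, B < N →
      (∀ j, j < N → Int.fract (j * θ + ρ) ≤ Int.fract (B * θ + ρ)) → M ≤ B := by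
  -- a bound mu < 1 for the first M points
  have hmu : ∃ mu : ℝ, mu < 1 ∧ ∀ j, j < M → Int.fract ((j : ℝ) * θ + ρ) ≤ mu := by
    induction M with
    | zero => exact ⟨0, one_pos, fun j hj => by omega⟩
    | succ M ih =>
      obtain ⟨mu, h1, h2⟩ := ih
      refine ⟨max mu (Int.fract ((M : ℝ) * θ + ρ)), max_lt h1 (Int.fract_lt_one _), ?_⟩
      intro j hj
      rcases Nat.lt_or_ge j M with h | h
      · exact (h2 j h).trans (le_max_left _ _)
      · have : j = M := by omega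
        subst this
        exact le_max_right _ _
  obtain ⟨mu, hmu1, hmu⟩ := hmu
  have hδ : 0 < (1 - mu) / 2 := by linarith
  obtain ⟨K, hK⟩ := exists_close hθ hδ
  obtain ⟨k, -, h, hk⟩ := hK ρ (1 - (1 - mu) / 2)
  rw [abs_lt] at hk
  have hfr : mu < Int.fract ((k : ℝ) * θ + ρ) := by
    have h1 : ⌊(k : ℝ) * θ + ρ⌋ ≤ h := by
      rw [← Int.lt_add_one_iff, Int.floor_lt]
      push_cast; linarith
    have h2 : ((⌊(k : ℝ) * θ + ρ⌋ : ℤ) : ℝ) ≤ h := by exact_mod_cast h1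
    rw [← Int.self_sub_floor]
    linarith
  refine ⟨k + 1, fun N hN B hB hmax => ?_⟩
  by_contra hlt
  push Not at hlt
  have h1 := hmax k (by omega)
  have h2 := hmu B hlt
  linarith

/-- Key lemma: for a best approximation denominator `q`, among the first `2q` points of an orbit, the
minimum or the maximum of the fractional parts is attained among the first `q` points. -/
lemma argmin_or_argmax {θ ρ : ℝ} {q : ℕ}
    (hq : ∀ i : ℕ, 0 < i → i < q → nd (q * θ) < nd (i * θ)) (hpos : 0 < nd (q * θ))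
    {A B : ℕ} (hA : A < 2 * q) (hB : B < 2 * q)
    (hAmin : ∀ j, j < 2 * q → Int.fract (A * θ + ρ) ≤ Int.fract (j * θ + ρ))
    (hBmax : ∀ j, j < 2 * q → Int.fract (j * θ + ρ) ≤ Int.fract (B * θ + ρ)) :
    A < q ∨ B < q := by
  by_contra hcon
  push Not at hcon
  obtain ⟨hAq, hBq⟩ := hcon
  set p : ℤ := round ((q : ℝ) * θ) with hp
  set e : ℝ := (q : ℝ) * θ - p with he
  have hnd : nd ((q : ℝ) * θ) = |e| := rfl
  rw [hnd] at hpos
  have hhalf : |e| ≤ 1 / 2 := nd_le_half _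
  set fA : ℝ := Int.fract ((A : ℝ) * θ + ρ) with hfA
  set fB : ℝ := Int.fract ((B : ℝ) * θ + ρ) with hfB
  have fA0 : 0 ≤ fA := Int.fract_nonneg _
  have fA1 : fA < 1 := Int.fract_lt_one _
  have fB0 : 0 ≤ fB := Int.fract_nonneg _
  have fB1 : fB < 1 := Int.fract_lt_one _
  have eA : (A : ℝ) * θ + ρ = ⌊(A : ℝ) * θ + ρ⌋ + fA := (Int.floor_add_fract _).symm
  have eB : (B : ℝ) * θ + ρ = ⌊(B : ℝ) * θ + ρ⌋ + fB := (Int.floor_add_fract _).symm
  -- main claim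
  have key : 1 - |e| ≤ fB - fA := by
    rcases lt_or_gt_of_ne (abs_pos.mp hpos) with h0 | h0
    · -- e < 0: use B - q
      have hae : |e| = -e := abs_of_neg h0
      have h1 := hBmax (B - q) (by omega)
      have h1' := hAmin (B - q) (by omega)
      have hcast : ((B - q : ℕ) : ℝ) = B - q := by rw [Nat.cast_sub hBq]
      have hval : ((B - q : ℕ) : ℝ) * θ + ρ = (fB + |e|) + ((⌊(B : ℝ) * θ + ρ⌋ - p : ℤ) : ℝ) := by
        rw [hcast, hae, he]; push_cast; linarith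
      rw [hval, Int.fract_add_intCast] at h1 h1'
      by_cases hlt : fB + |e| < 1
      · rw [Int.fract_eq_self.mpr ⟨by positivity, hlt⟩] at h1
        linarith
      · push Not at hlt
        have : Int.fract (fB + |e|) = fB + |e| - 1 := by
          rw [Int.fract_eq_iff]
          exact ⟨by linarith, by linarith, 1, by push_cast; ring⟩
        rw [this] at h1'
        linarith
    · have hae : |e| = e := abs_of_pos h0
      have h1 := hAmin (A - q) (by omega)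
      have h1' := hBmax (A - q) (by omega)
      have hcast : ((A - q : ℕ) : ℝ) = A - q := by rw [Nat.cast_sub hAq]
      have hval : ((A - q : ℕ) : ℝ) * θ + ρ = (fA - |e|) + ((⌊(A : ℝ) * θ + ρ⌋ - p : ℤ) : ℝ) := by
        rw [hcast, hae, he]; push_cast; linarith
      rw [hval, Int.fract_add_intCast] at h1 h1'
      by_cases hlt : 0 ≤ fA - |e|
      · rw [Int.fract_eq_self.mpr ⟨hlt, by linarith⟩] at h1
        linarith
      · push Not at hlt
        have : Int.fract (fA - |e|) = fA - |e| + 1 := by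
          rw [Int.fract_eq_iff]
          exact ⟨by linarith, by linarith, -1, by push_cast; ring⟩
        rw [this] at h1'
        linarith
  rcases lt_trichotomy A B with hAB | hAB | hAB
  · have h1 := hq (B - A) (by omega) (by omega)
    have h2 : nd (((B - A : ℕ) : ℝ) * θ) ≤ |((B - A : ℕ) : ℝ) * θ - ((⌊(B : ℝ) * θ + ρ⌋ - ⌊(A : ℝ) * θ + ρ⌋ + 1 : ℤ) : ℝ)| :=
      nd_le _ _
    have h3 : ((B - A : ℕ) : ℝ) * θ - ((⌊(B : ℝ) * θ + ρ⌋ - ⌊(A : ℝ) * θ + ρ⌋ + 1 : ℤ) : ℝ) = -(1 - (fB - fA)) := by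
      rw [Nat.cast_sub hAB.le]; push_cast; linarith
    rw [h3, abs_neg, abs_of_pos (by linarith)] at h2
    rw [hnd] at h1
    linarith
  · subst hAB
    linarith
  · have h1 := hq (A - B) (by omega) (by omega)
    have h2 : nd (((A - B : ℕ) : ℝ) * θ) ≤ |((A - B : ℕ) : ℝ) * θ - ((⌊(A : ℝ) * θ + ρ⌋ - ⌊(B : ℝ) * θ + ρ⌋ - 1 : ℤ) : ℝ)| :=
      nd_le _ _
    have h3 : ((A - B : ℕ) : ℝ) * θ - ((⌊(A : ℝ) * θ + ρ⌋ - ⌊(B : ℝ) * θ + ρ⌋ - 1 : ℤ) : ℝ) = (1 - (fB - fA)) := by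
      rw [Nat.cast_sub hAB.le]; push_cast; linarith
    rw [h3, abs_of_pos (by linarith)] at h2
    rw [hnd] at h1
    linarith

/-- Mirror lemma. -/
lemma mirror_floor {θ ρ ρ' : ℝ} {N A B : ℕ}
    (hAmin : ∀ j, j < N → Int.fract (A * θ + ρ) ≤ Int.fract (j * θ + ρ))
    (hBmax : ∀ j, j < N → Int.fract (j * θ + ρ') ≤ Int.fract (B * θ + ρ')) :
    (∀ j, j < N → j ≤ A + B → ⌊(j : ℝ) * θ + ρ⌋ + ⌊((A + B - j : ℕ) : ℝ) * θ + ρ'⌋
        = ⌊(A : ℝ) * θ + ρ⌋ + ⌊(B : ℝ) * θ + ρ'⌋) ∨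
    (∀ j, j < N → j ≤ A + B → ⌊((A + B - j : ℕ) : ℝ) * θ + ρ⌋ + ⌊(j : ℝ) * θ + ρ'⌋
        = ⌊(A : ℝ) * θ + ρ⌋ + ⌊(B : ℝ) * θ + ρ'⌋) := by
  set f : ℝ := Int.fract ((A : ℝ) * θ + ρ) with hf
  set f' : ℝ := Int.fract ((B : ℝ) * θ + ρ') with hf'
  have f0 : 0 ≤ f := Int.fract_nonneg _
  have f1 : f < 1 := Int.fract_lt_one _
  have f0' : 0 ≤ f' := Int.fract_nonneg _
  have f1' : f' < 1 := Int.fract_lt_one _
  have eA : (A : ℝ) * θ + ρ = ⌊(A : ℝ) * θ + ρ⌋ + f := (Int.floor_add_fract _).symm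
  have eB : (B : ℝ) * θ + ρ' = ⌊(B : ℝ) * θ + ρ'⌋ + f' := (Int.floor_add_fract _).symm
  have general : ∀ j j' : ℕ, j + j' = A + B →
      ((⌊(j : ℝ) * θ + ρ⌋ + ⌊(j' : ℝ) * θ + ρ'⌋ : ℤ) : ℝ)
        + (Int.fract ((j : ℝ) * θ + ρ) + Int.fract ((j' : ℝ) * θ + ρ'))
        = ((⌊(A : ℝ) * θ + ρ⌋ + ⌊(B : ℝ) * θ + ρ'⌋ : ℤ) : ℝ) + (f + f') := by
    intro j j' hjj
    have e1 : (j : ℝ) * θ + ρ = ⌊(j : ℝ) * θ + ρ⌋ + Int.fract ((j : ℝ) * θ + ρ) :=
      (Int.floor_add_fract _).symm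
    have e2 : (j' : ℝ) * θ + ρ' = ⌊(j' : ℝ) * θ + ρ'⌋ + Int.fract ((j' : ℝ) * θ + ρ') :=
      (Int.floor_add_fract _).symm
    have e3 : (j : ℝ) + j' = A + B := by exact_mod_cast hjj
    push_cast
    have : (j : ℝ) * θ + ρ + ((j' : ℝ) * θ + ρ') = (A : ℝ) * θ + ρ + ((B : ℝ) * θ + ρ') := by
      have : ((j : ℝ) + j') * θ = (A + B) * θ := by rw [e3]
      linarith
    linarith
  rcases le_or_gt 1 (f + f') with hc | hc
  · left
    intro j hj hjm
    have hg := general j (A + B - j) (by omega)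
    have h1 := hAmin j hj
    have h2 := Int.fract_lt_one (((A + B - j : ℕ) : ℝ) * θ + ρ')
    have h3 := Int.fract_nonneg (((A + B - j : ℕ) : ℝ) * θ + ρ')
    have h4 := Int.fract_lt_one ((j : ℝ) * θ + ρ)
    have hlt1 : ((⌊(j : ℝ) * θ + ρ⌋ + ⌊((A + B - j : ℕ) : ℝ) * θ + ρ'⌋ : ℤ) : ℝ) <
        ((⌊(A : ℝ) * θ + ρ⌋ + ⌊(B : ℝ) * θ + ρ'⌋ + 1 : ℤ) : ℝ) := by
      push_cast at hg ⊢; linarith
    have hlt2 : ((⌊(A : ℝ) * θ + ρ⌋ + ⌊(B : ℝ) * θ + ρ'⌋ - 1 : ℤ) : ℝ) <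
        ((⌊(j : ℝ) * θ + ρ⌋ + ⌊((A + B - j : ℕ) : ℝ) * θ + ρ'⌋ : ℤ) : ℝ) := by
      push_cast at hg ⊢; linarith
    have i1 := Int.cast_lt.mp hlt1
    have i2 := Int.cast_lt.mp hlt2
    omega
  · right
    intro j hj hjm
    have hg := general (A + B - j) j (by omega)
    have h1 := hBmax j hj
    have h2 := Int.fract_lt_one (((A + B - j : ℕ) : ℝ) * θ + ρ)
    have h3 := Int.fract_nonneg (((A + B - j : ℕ) : ℝ) * θ + ρ)
    have h4 := Int.fract_nonneg ((j : ℝ) * θ + ρ')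
    have hlt1 : ((⌊((A + B - j : ℕ) : ℝ) * θ + ρ⌋ + ⌊(j : ℝ) * θ + ρ'⌋ : ℤ) : ℝ) <
        ((⌊(A : ℝ) * θ + ρ⌋ + ⌊(B : ℝ) * θ + ρ'⌋ + 1 : ℤ) : ℝ) := by
      push_cast at hg ⊢; linarith
    have hlt2 : ((⌊(A : ℝ) * θ + ρ⌋ + ⌊(B : ℝ) * θ + ρ'⌋ - 1 : ℤ) : ℝ) <
        ((⌊((A + B - j : ℕ) : ℝ) * θ + ρ⌋ + ⌊(j : ℝ) * θ + ρ'⌋ : ℤ) : ℝ) := by
      push_cast at hg ⊢; linarith
    have i1 := Int.cast_lt.mp hlt1
    have i2 := Int.cast_lt.mp hlt2
    omega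

/-- Floor-coded word with intercept `ρ`. -/
noncomputable def mech (θ ρ : ℝ) (n : ℕ) : ℤ := ⌊((n + 1 : ℕ) : ℝ) * θ + ρ⌋ - ⌊(n : ℝ) * θ + ρ⌋

lemma mech_shift (θ ρ : ℝ) (r n : ℕ) : mech θ ρ (r + n) = mech θ (ρ + r * θ) n := by
  unfold mech
  have h1 : ((r + n + 1 : ℕ) : ℝ) * θ + ρ = ((n + 1 : ℕ) : ℝ) * θ + (ρ + r * θ) := by
    push_cast; ring
  have h2 : ((r + n : ℕ) : ℝ) * θ + ρ = (n : ℝ) * θ + (ρ + r * θ) := by
    push_cast; ring
  rw [h1, h2]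

/-- Mirror coincidences between two mechanical words with the same slope. -/
lemma exists_mirror {θ : ℝ} (hθ : Irrational θ) (ρ ρ' : ℝ) (M : ℕ) :
    ∃ n r : ℕ, M ≤ n ∧ 2 * r ≤ n ∧
      ((∀ i, i < n → mech θ ρ i = mech θ ρ' (r + (n - 1 - i))) ∨
       (∀ i, i < n → mech θ ρ' i = mech θ ρ (r + (n - 1 - i)))) := by
  obtain ⟨N1, hN1⟩ := argmax_large hθ ρ (M + 1)
  obtain ⟨N2, hN2⟩ := argmax_large hθ ρ' (M + 1)
  obtain ⟨q, hqM, hq⟩ := exists_best hθ (max (max N1 N2) (M + 1))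
  have hq0 : 0 < q := by omega
  have hpos : 0 < nd (q * θ) := nd_pos hθ hq0
  have hne : (Finset.range (2 * q)).Nonempty := ⟨0, by simp; omega⟩
  obtain ⟨A, hA, hAmin⟩ := Finset.exists_min_image (Finset.range (2 * q)) (fun j : ℕ => Int.fract ((j : ℝ) * θ + ρ)) hne
  obtain ⟨B, hB, hBmax⟩ := Finset.exists_max_image (Finset.range (2 * q)) (fun j : ℕ => Int.fract ((j : ℝ) * θ + ρ)) hne
  obtain ⟨A', hA', hAmin'⟩ := Finset.exists_min_image (Finset.range (2 * q)) (fun j : ℕ => Int.fract ((j : ℝ) * θ + ρ')) hne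
  obtain ⟨B', hB', hBmax'⟩ := Finset.exists_max_image (Finset.range (2 * q)) (fun j : ℕ => Int.fract ((j : ℝ) * θ + ρ')) hne
  simp only [Finset.mem_range] at hA hB hA' hB' hAmin hBmax hAmin' hBmax'
  have hBlarge : M + 1 ≤ B := hN1 (2 * q) (by omega) B hB hBmax
  have hBlarge' : M + 1 ≤ B' := hN2 (2 * q) (by omega) B' hB' hBmax'
  -- general consequence of the mirror lemma
  have main : ∀ (σ σ' : ℝ) (a b : ℕ), a < 2 * q → b < 2 * q → (a < q ∨ b < q) → M + 1 ≤ b →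
      (∀ j, j < 2 * q → Int.fract (a * θ + σ) ≤ Int.fract (j * θ + σ)) →
      (∀ j, j < 2 * q → Int.fract (j * θ + σ') ≤ Int.fract (b * θ + σ')) →
      ∃ n r : ℕ, M ≤ n ∧ 2 * r ≤ n ∧
      ((∀ i, i < n → mech θ σ i = mech θ σ' (r + (n - 1 - i))) ∨
       (∀ i, i < n → mech θ σ' i = mech θ σ (r + (n - 1 - i)))) := by
    intro σ σ' a b ha hb hor hbM hamin hbmax
    refine ⟨min (2 * q - 1) (a + b), a + b - min (2 * q - 1) (a + b), by omega, by omega, ?_⟩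
    rcases mirror_floor hamin hbmax with h | h
    · left
      intro i hi
      have e1 := h i (by omega) (by omega)
      have e2 := h (i + 1) (by omega) (by omega)
      have i1 : a + b - min (2 * q - 1) (a + b) + (min (2 * q - 1) (a + b) - 1 - i) = a + b - (i + 1) := by omega
      rw [i1]
      unfold mech
      have i2 : a + b - (i + 1) + 1 = a + b - i := by omega
      rw [i2]
      omega
    · right
      intro i hi
      have e1 := h i (by omega) (by omega)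
      have e2 := h (i + 1) (by omega) (by omega)
      have i1 : a + b - min (2 * q - 1) (a + b) + (min (2 * q - 1) (a + b) - 1 - i) = a + b - (i + 1) := by omega
      rw [i1]
      unfold mech
      have i2 : a + b - (i + 1) + 1 = a + b - i := by omega
      rw [i2]
      omega
  rcases argmin_or_argmax hq hpos hA hB hAmin hBmax with h | h
  · exact main ρ ρ' A B' hA hB' (Or.inl h) hBlarge' hAmin hBmax'
  · obtain ⟨n, r, h1, h2, h3⟩ := main ρ' ρ A' B hA' hB (Or.inr h) hBlarge hAmin' hBmax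
    exact ⟨n, r, h1, h2, h3.symm⟩

end Pool.Agent.H2.Sturm
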