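import Mathlib

set_option autoImplicit false

namespace Pool.Agent.H2.Sturm

/-- The `n`-th partial quotient (`n = 0, 1, 2, …`) of the regular continued fraction expansion of `x`:
the floor of the `n`-th iterate of the map `y ↦ 1 / (y - ⌊y⌋)` at `x`. -/
noncomputable def cfDigit (x : ℝ) (n : ℕ) : ℤ := ⌊(fun y : ℝ => (Int.fract y)⁻¹)^[n] x⌋

/-- From the `k`-th partial quotient on, the continued fraction expansion of `x` is the concatenation
`w 0, w 1, w 2, …` of the finite words `w n`. -/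
def CFTail (x : ℝ) (k : ℕ) (w : ℕ → List ℕ) : Prop :=
  ∀ (n i : ℕ) (h : i < ((List.range n).flatMap w).length),
    cfDigit x (k + i) = ((((List.range n).flatMap w)[i] : ℕ) : ℤ)

/-- `s` is a (lower or upper) mechanical word of slope `θ`, with some intercept `ρ`. For irrational `θ`
these are exactly the Sturmian words of slope `θ`; the letters are `⌊θ⌋` and `⌊θ⌋ + 1`. -/
def IsMechanical (θ : ℝ) (s : ℕ → ℤ) : Prop :=
  ∃ ρ : ℝ, (∀ n : ℕ, s n = ⌊((n : ℝ) + 1) * θ + ρ⌋ - ⌊(n : ℝ) * θ + ρ⌋) ∨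
    (∀ n : ℕ, s n = ⌈((n : ℝ) + 1) * θ + ρ⌉ - ⌈(n : ℝ) * θ + ρ⌉)

end Pool.Agent.H2.Sturm
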