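import Mathlib
import Pool.Agent.H2.Sturm.Rotation

set_option autoImplicit false

namespace Pool.Agent.H2.Sturm

/-- Continued fraction matrix of a finite word. -/
def cfMat : List ℕ → Matrix (Fin 2) (Fin 2) ℕ
  | [] => 1
  | a :: l => !![a, 1; 1, 0] * cfMat l

lemma cfMat_cons (a : ℕ) (l : List ℕ) : cfMat (a :: l) = !![a, 1; 1, 0] * cfMat l := rfl

lemma cfMat_nil : cfMat [] = 1 := rfl

lemma cfMat_append (u v : List ℕ) : cfMat (u ++ v) = cfMat u * cfMat v := by
  induction u with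
  | nil => simp [cfMat_nil]
  | cons a u ih => rw [List.cons_append, cfMat_cons, cfMat_cons, ih, Matrix.mul_assoc]

lemma cfMat_reverse (u : List ℕ) : cfMat u.reverse = (cfMat u).transpose := by
  induction u with
  | nil => simp [cfMat_nil]
  | cons a u ih =>
    rw [List.reverse_cons, cfMat_append, ih, cfMat_cons, cfMat_cons, cfMat_nil, Matrix.transpose_mul,
      Matrix.mul_one]
    congr 1
    ext i j
    fin_cases i <;> fin_cases j <;> simp [Matrix.transpose_apply]

lemma cfMat_cons_00 (a : ℕ) (l : List ℕ) : cfMat (a :: l) 0 0 = a * cfMat l 0 0 + cfMat l 1 0 := by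
  rw [cfMat_cons, Matrix.mul_apply]; simp [Fin.sum_univ_two]

lemma cfMat_cons_01 (a : ℕ) (l : List ℕ) : cfMat (a :: l) 0 1 = a * cfMat l 0 1 + cfMat l 1 1 := by
  rw [cfMat_cons, Matrix.mul_apply]; simp [Fin.sum_univ_two]

lemma cfMat_cons_10 (a : ℕ) (l : List ℕ) : cfMat (a :: l) 1 0 = cfMat l 0 0 := by
  rw [cfMat_cons, Matrix.mul_apply]; simp [Fin.sum_univ_two]

lemma cfMat_cons_11 (a : ℕ) (l : List ℕ) : cfMat (a :: l) 1 1 = cfMat l 0 1 := by
  rw [cfMat_cons, Matrix.mul_apply]; simp [Fin.sum_univ_two]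

/-- Inequalities between the entries. -/
lemma cfMat_ineq (l : List ℕ) (h : ∀ x ∈ l, 0 < x) :
    1 ≤ cfMat l 0 0 ∧ cfMat l 0 1 ≤ cfMat l 0 0 ∧ cfMat l 1 0 ≤ cfMat l 0 0 ∧
      cfMat l 1 1 ≤ cfMat l 0 0 ∧ cfMat l 0 1 + cfMat l 1 1 ≤ cfMat l 0 0 + cfMat l 1 0 := by
  induction l with
  | nil => simp [cfMat_nil]
  | cons a l ih =>
    have ha : 1 ≤ a := h a (by simp)
    obtain ⟨h1, h2, h3, h4, h5⟩ := ih (fun x hx => h x (by simp [hx]))
    rw [cfMat_cons_00, cfMat_cons_01, cfMat_cons_10, cfMat_cons_11]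
    obtain ⟨b, rfl⟩ : ∃ b, a = b + 1 := ⟨a - 1, by omega⟩
    have hb : b * cfMat l 0 1 ≤ b * cfMat l 0 0 := Nat.mul_le_mul_left _ h2
    refine ⟨?_, ?_, ?_, ?_, ?_⟩ <;> nlinarith

lemma cfMat_01_pos (l : List ℕ) (h : ∀ x ∈ l, 0 < x) (hne : l ≠ []) : 1 ≤ cfMat l 0 1 := by
  induction l with
  | nil => exact absurd rfl hne
  | cons a l ih =>
    have ha : 1 ≤ a := h a (by simp)
    rw [cfMat_cons_01]
    by_cases hl : l = []
    · subst hl; simp [cfMat_nil]
    · have := ih (fun x hx => h x (by simp [hx])) hl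
      nlinarith

/-- The size of a word: top left entry (a continuant). -/
def siz (l : List ℕ) : ℕ := cfMat l 0 0

lemma siz_pos {l : List ℕ} (h : ∀ x ∈ l, 0 < x) : 1 ≤ siz l := (cfMat_ineq l h).1

lemma siz_append_le {u v : List ℕ} (hu : ∀ x ∈ u, 0 < x) (hv : ∀ x ∈ v, 0 < x) :
    siz (u ++ v) ≤ 2 * (siz u * siz v) := by
  unfold siz
  rw [cfMat_append, Matrix.mul_apply, Fin.sum_univ_two]
  obtain ⟨h1, h2, h3, h4, h5⟩ := cfMat_ineq u hu
  obtain ⟨g1, g2, g3, g4, g5⟩ := cfMat_ineq v hv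
  have := Nat.mul_le_mul h2 g3
  linarith

lemma siz_append_ge (u v : List ℕ) : siz u * siz v ≤ siz (u ++ v) := by
  unfold siz
  rw [cfMat_append, Matrix.mul_apply, Fin.sum_univ_two]
  exact Nat.le_add_right _ _

lemma siz_growth (l : List ℕ) (h : ∀ x ∈ l, 0 < x) : 2 ^ (l.length / 2) ≤ siz l := by
  induction hn : l.length using Nat.strong_induction_on generalizing l with
  | _ n ih =>
    match l, hn with
    | [], hn => subst hn; simp [siz, cfMat_nil]
    | [a], hn =>
      subst hn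
      simp only [List.length_singleton]
      exact siz_pos h
    | a :: b :: l, hn =>
      have ha : 1 ≤ a := h a (by simp)
      have hb : 1 ≤ b := h b (by simp)
      have hl : ∀ x ∈ l, 0 < x := fun x hx => h x (by simp [hx])
      have := ih l.length (by rw [← hn]; simp) l hl rfl
      subst hn
      have e : (a :: b :: l).length / 2 = l.length / 2 + 1 := by simp; omega
      rw [e, pow_succ]
      unfold siz at this ⊢
      rw [cfMat_cons_00, cfMat_cons_00, cfMat_cons_10]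
      have hab : 1 ≤ a * b := Nat.mul_pos ha hb
      nlinarith [Nat.mul_le_mul_right (cfMat l 0 0) hab, Nat.zero_le (a * cfMat l 1 0)]

/-- Concatenation of the first `n` words. -/
def cat (w : ℕ → List ℕ) (n : ℕ) : List ℕ := (List.range n).flatMap w

lemma cat_zero (w : ℕ → List ℕ) : cat w 0 = [] := rfl

lemma cat_succ (w : ℕ → List ℕ) (n : ℕ) : cat w (n + 1) = cat w n ++ w n := by
  unfold cat
  rw [List.range_succ, List.flatMap_append]
  simp

lemma cat_add (w : ℕ → List ℕ) (n m : ℕ) : cat w (n + m) = cat w n ++ cat (fun j => w (n + j)) m := by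
  induction m with
  | zero => simp [cat_zero]
  | succ m ih => rw [← Nat.add_assoc, cat_succ, ih, cat_succ, List.append_assoc]

lemma cat_mem {w : ℕ → List ℕ} (h : ∀ j, ∀ x ∈ w j, 0 < x) (n : ℕ) : ∀ x ∈ cat w n, 0 < x := by
  intro x hx
  unfold cat at hx
  rw [List.mem_flatMap] at hx
  obtain ⟨j, -, hj⟩ := hx
  exact h j x hj

lemma cat_length {w : ℕ → List ℕ} (h : ∀ j, w j ≠ []) (n : ℕ) : n ≤ (cat w n).length := by
  induction n with
  | zero => simp
  | succ n ih =>
    rw [cat_succ, List.length_append]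
    have := List.length_pos_iff.mpr (h n)
    omega

lemma cat_congr {w w' : ℕ → List ℕ} {n : ℕ} (h : ∀ j, j < n → w j = w' j) : cat w n = cat w' n := by
  induction n with
  | zero => rfl
  | succ n ih =>
    rw [cat_succ, cat_succ, ih (fun j hj => h j (by omega)), h n (by omega)]

/-- Comparison of two concatenations differing in few places. -/
lemma compare_count {w w' : ℕ → List ℕ} {κ : ℕ}
    (hne' : ∀ j, w' j ≠ []) (hp : ∀ j, ∀ x ∈ w j, 0 < x) (hp' : ∀ j, ∀ x ∈ w' j, 0 < x)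
    (hκ : ∀ j, cfMat (w j) 0 0 ≤ κ) (p : ℕ → Prop) [DecidablePred p]
    (hw : ∀ j, ¬ p j → w j = w' j) (hκ1 : 1 ≤ κ) (n : ℕ) :
    cfMat (cat w n) 0 0 ≤ (2 * κ) ^ (Nat.count p n) * cfMat (cat w' n) 0 0 ∧
    cfMat (cat w n) 0 1 ≤ (2 * κ) ^ (Nat.count p n) * cfMat (cat w' n) 0 1 := by
  induction n with
  | zero => simp [cat_zero]
  | succ n ih =>
    obtain ⟨i1, i2⟩ := ih
    rw [cat_succ, cat_succ, cfMat_append, cfMat_append]
    simp only [Matrix.mul_apply, Fin.sum_univ_two]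
    obtain ⟨a1, a2, a3, a4, -⟩ := cfMat_ineq (cat w n) (cat_mem hp n)
    obtain ⟨b1, b2, b3, b4, -⟩ := cfMat_ineq (w n) (hp n)
    obtain ⟨c1, c2, c3, c4, -⟩ := cfMat_ineq (w' n) (hp' n)
    have c5 := cfMat_01_pos (w' n) (hp' n) (hne' n)
    have hκn := hκ n
    set c := (2 * κ) ^ (Nat.count p n) with hc
    by_cases hpn : p n
    · rw [Nat.count_succ, if_pos hpn, pow_succ, ← hc]
      set P00 := cfMat (cat w n) 0 0
      set P01 := cfMat (cat w n) 0 1
      set Q00 := cfMat (cat w' n) 0 0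
      set Q01 := cfMat (cat w' n) 0 1
      have k1 : P00 * cfMat (w n) 0 0 + P01 * cfMat (w n) 1 0 ≤ 2 * κ * P00 := by
        have := Nat.mul_le_mul (le_refl P00) hκn
        have := Nat.mul_le_mul a2 (b3.trans hκn)
        nlinarith
      have k2 : P00 * cfMat (w n) 0 1 + P01 * cfMat (w n) 1 1 ≤ 2 * κ * P00 := by
        have := Nat.mul_le_mul (le_refl P00) (b2.trans hκn)
        have := Nat.mul_le_mul a2 (b4.trans hκn)
        nlinarith
      have k3 : 2 * κ * P00 ≤ c * (2 * κ) * Q00 := by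
        calc 2 * κ * P00 ≤ 2 * κ * (c * Q00) := Nat.mul_le_mul_left _ i1
          _ = _ := by ring
      have k4 : Q00 ≤ Q00 * cfMat (w' n) 0 0 + Q01 * cfMat (w' n) 1 0 := by
        have := Nat.mul_le_mul (le_refl Q00) c1
        nlinarith [Nat.zero_le (Q01 * cfMat (w' n) 1 0)]
      have k5 : Q00 ≤ Q00 * cfMat (w' n) 0 1 + Q01 * cfMat (w' n) 1 1 := by
        have := Nat.mul_le_mul (le_refl Q00) c5
        nlinarith [Nat.zero_le (Q01 * cfMat (w' n) 1 1)]
      exact ⟨k1.trans (k3.trans (Nat.mul_le_mul_left _ k4)), k2.trans (k3.trans (Nat.mul_le_mul_left _ k5))⟩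
    · rw [Nat.count_succ, if_neg hpn, Nat.add_zero, ← hc, hw n hpn]
      constructor
      · have k1 := Nat.mul_le_mul_right (cfMat (w' n) 0 0) i1
        have k2 := Nat.mul_le_mul_right (cfMat (w' n) 1 0) i2
        refine (Nat.add_le_add k1 k2).trans (le_of_eq ?_)
        ring
      · have k1 := Nat.mul_le_mul_right (cfMat (w' n) 0 1) i1
        have k2 := Nat.mul_le_mul_right (cfMat (w' n) 1 1) i2
        refine (Nat.add_le_add k1 k2).trans (le_of_eq ?_)
        ring

/-- Sparse predicates have small counts. -/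
lemma count_sparse (p : ℕ → Prop) [DecidablePred p] {T : ℕ} (hT : 0 < T)
    (h : ∀ i j, i < j → j < i + T → p i → ¬ p j) (n : ℕ) : Nat.count p n ≤ n / T + 1 := by
  induction n using Nat.strong_induction_on generalizing p with
  | _ n ih =>
    have window : ∀ m, m ≤ T → Nat.count p m ≤ 1 := by
      intro m
      induction m with
      | zero => simp
      | succ m ihm =>
        intro hm
        rw [Nat.count_succ]
        by_cases hpm : p m
        · rw [if_pos hpm]
          have : Nat.count p m = 0 := by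
            rw [Nat.count_eq_card_filter_range, Finset.card_eq_zero, Finset.filter_eq_empty_iff]
            intro i hi hpi
            rw [Finset.mem_range] at hi
            exact h i m hi (by omega) hpi hpm
          omega
        · rw [if_neg hpm]
          exact ihm (by omega)
    rcases Nat.lt_or_ge n T with hn | hn
    · exact (window n hn.le).trans (Nat.le_add_left _ _)
    · obtain ⟨m, rfl⟩ : ∃ m, n = T + m := ⟨n - T, by omega⟩
      rw [Nat.count_add]
      have h1 := window T le_rfl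
      have h2 := ih m (by omega) (fun k => p (T + k)) (fun i j hij hj hi => h (T + i) (T + j) (by omega) (by omega) hi)
      have h3 : (T + m) / T = m / T + 1 := by
        rw [Nat.add_div_left _ hT]
      omega

lemma floor_eq_of_nd {x e δ : ℝ} (he : |e| < δ) (hx : δ ≤ nd x) : ⌊x + e⌋ = ⌊x⌋ := by
  have h1 : δ ≤ |x - ⌊x⌋| := hx.trans (nd_le x _)
  have h2 : δ ≤ |x - ((⌊x⌋ + 1 : ℤ) : ℝ)| := hx.trans (nd_le x _)
  rw [abs_of_nonneg (by have := Int.floor_le x; linarith)] at h1
  rw [abs_of_nonpos (by have := Int.lt_floor_add_one x; push_cast; linarith)] at h2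
  rw [abs_lt] at he
  rw [Int.floor_eq_iff]
  push_cast at h2
  constructor <;> linarith

lemma nd_tri {x y : ℝ} : nd (x - y) ≤ nd x + nd y := by
  have h := nd_le (x - y) (round x - round y)
  have h2 : x - y - ((round x - round y : ℤ) : ℝ) = (x - round x) - (y - round y) := by
    push_cast; ring
  rw [h2] at h
  exact h.trans (abs_sub _ _)

/-- Two mechanical words of the same slope nearly agree after a bounded shift. -/
lemma mech_close {θ : ℝ} (hθ : Irrational θ) {T : ℕ} (hT : 0 < T) :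
    ∃ K : ℕ, ∀ ρ ρ' : ℝ, ∃ k : ℕ, k ≤ K ∧ ∃ p : ℕ → Bool,
      (∀ j, ¬ (p j = true) → mech θ ρ (k + j) = mech θ ρ' j) ∧
        ∀ n, Nat.count (fun j => p j = true) n ≤ 2 * (n / T + 1) := by
  classical
  obtain ⟨d, hd, hsep⟩ := exists_sep hθ T
  have hd2 : 0 < d / 2 := by linarith
  obtain ⟨K, hK⟩ := exists_close hθ hd2
  refine ⟨K, fun ρ ρ' => ?_⟩
  obtain ⟨k, hk, h, hkh⟩ := hK ρ ρ'
  refine ⟨k, hk, fun j => decide (nd ((j : ℝ) * θ + ρ') < d / 2 ∨ nd (((j + 1 : ℕ) : ℝ) * θ + ρ') < d / 2),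
    ?_, ?_⟩
  · intro j hj
    rw [decide_eq_true_eq] at hj
    push Not at hj
    obtain ⟨h1, h2⟩ := hj
    rw [mech_shift]
    unfold mech
    set e : ℝ := ρ + k * θ - ρ' - h with he
    have e1 : ((j + 1 : ℕ) : ℝ) * θ + (ρ + k * θ) = (((j + 1 : ℕ) : ℝ) * θ + ρ' + e) + h := by
      rw [he]; ring
    have e2 : (j : ℝ) * θ + (ρ + k * θ) = ((j : ℝ) * θ + ρ' + e) + h := by
      rw [he]; ring
    rw [e1, e2, Int.floor_add_intCast, Int.floor_add_intCast, floor_eq_of_nd hkh h1, floor_eq_of_nd hkh h2]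
    ring
  · intro n
    have sparse : ∀ c : ℕ, Nat.count (fun j : ℕ => nd (((j + c : ℕ) : ℝ) * θ + ρ') < d / 2) n ≤ n / T + 1 := by
      intro c
      apply count_sparse _ hT
      intro i j hij hjT hi hj
      have h1 := hsep (j - i) (by omega) (by omega)
      have h2 : ((j - i : ℕ) : ℝ) * θ = (((j + c : ℕ) : ℝ) * θ + ρ') - (((i + c : ℕ) : ℝ) * θ + ρ') := by
        rw [Nat.cast_sub hij.le]; push_cast; ring
      rw [h2] at h1
      have h3 := @nd_tri (((j + c : ℕ) : ℝ) * θ + ρ') (((i + c : ℕ) : ℝ) * θ + ρ')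
      linarith
    have h0 := sparse 0
    have h1 := sparse 1
    simp only [Nat.add_zero] at h0
    have hor : Nat.count (fun j : ℕ => nd ((j : ℝ) * θ + ρ') < d / 2 ∨ nd (((j + 1 : ℕ) : ℝ) * θ + ρ') < d / 2) n
        ≤ Nat.count (fun j : ℕ => nd ((j : ℝ) * θ + ρ') < d / 2) n +
          Nat.count (fun j : ℕ => nd (((j + 1 : ℕ) : ℝ) * θ + ρ') < d / 2) n := by
      simp only [Nat.count_eq_card_filter_range]
      rw [Finset.filter_or]
      exact Finset.card_union_le _ _
    have hmono : ∀ j : ℕ, (decide (nd ((j : ℝ) * θ + ρ') < d / 2 ∨ nd (((j + 1 : ℕ) : ℝ) * θ + ρ') < d / 2) = true) →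
        (nd ((j : ℝ) * θ + ρ') < d / 2 ∨ nd (((j + 1 : ℕ) : ℝ) * θ + ρ') < d / 2) :=
      fun j hj => of_decide_eq_true hj
    exact (Nat.count_mono_left (fun j _ hj => hmono j hj)).trans (hor.trans (by omega))

end Pool.Agent.H2.Sturm
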