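import Mathlib
import Pool.Agent.H2.Sturm.Growth
import Pool.Agent.H2.Sturm.Defs

set_option autoImplicit false

namespace Pool.Agent.H2.Sturm

/-- `n`-th complete quotient. -/
noncomputable def cq (x : ℝ) (n : ℕ) : ℝ := (fun y : ℝ => (Int.fract y)⁻¹)^[n] x

lemma cfDigit_eq (x : ℝ) (n : ℕ) : cfDigit x n = ⌊cq x n⌋ := rfl

lemma cq_zero (x : ℝ) : cq x 0 = x := rfl

lemma cq_succ (x : ℝ) (n : ℕ) : cq x (n + 1) = (Int.fract (cq x n))⁻¹ := by
  unfold cq
  rw [Function.iterate_succ_apply']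

lemma cq_add (x : ℝ) (n m : ℕ) : cq x (n + m) = cq (cq x n) m := by
  unfold cq
  rw [Nat.add_comm, Function.iterate_add_apply]

/-- If all later digits are positive then no fractional part vanishes. -/
lemma fract_ne_zero {x : ℝ} {k : ℕ} (h : ∀ i, 0 < cfDigit x (k + i)) (n : ℕ) :
    Int.fract (cq x n) ≠ 0 := by
  intro h0
  have hz : ∀ m, cq x (n + 1 + m) = 0 := by
    intro m
    induction m with
    | zero => rw [Nat.add_zero, cq_succ, h0, inv_zero]
    | succ m ih => rw [← Nat.add_assoc, cq_succ, ih, Int.fract_zero, inv_zero]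
  have h1 := h (n + 1)
  have h2 := hz k
  rw [cfDigit_eq, Nat.add_comm k (n + 1), h2] at h1
  simp at h1

lemma one_lt_cq {x : ℝ} {k : ℕ} (h : ∀ i, 0 < cfDigit x (k + i)) (n : ℕ) : 1 < cq x (n + 1) := by
  rw [cq_succ]
  have h0 : 0 < Int.fract (cq x n) := lt_of_le_of_ne (Int.fract_nonneg _) (Ne.symm (fract_ne_zero h n))
  exact (one_lt_inv₀ h0).mpr (Int.fract_lt_one _)

lemma cq_rel {x : ℝ} {k : ℕ} (h : ∀ i, 0 < cfDigit x (k + i)) (n : ℕ) :
    cq x n * cq x (n + 1) = cfDigit x n * cq x (n + 1) + 1 := by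
  have h0 := fract_ne_zero h n
  have h1 : cq x n = cfDigit x n + Int.fract (cq x n) := by
    rw [cfDigit_eq]; exact (Int.floor_add_fract _).symm
  rw [cq_succ]
  field_simp
  linarith

/-- The Moebius relation between the real number and its complete quotients. -/
lemma state_exists {x : ℝ} {k : ℕ} (h : ∀ i, 0 < cfDigit x (k + i)) (n : ℕ) :
    ∃ A B : ℤ, ∃ C D : ℕ, (A * D - B * C) ^ 2 = 1 ∧ 1 ≤ C ∧ D ≤ C ∧
      ((C : ℝ) * cq x (n + 1) + D) * x = A * cq x (n + 1) + B := by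
  induction n with
  | zero =>
    refine ⟨cfDigit x 0, 1, 1, 0, by norm_num, le_refl _, by norm_num, ?_⟩
    have := cq_rel h 0
    rw [cq_zero] at this
    push_cast
    linarith
  | succ n ih =>
    obtain ⟨A, B, C, D, hdet, hC, hD, hrel⟩ := ih
    have hr := cq_rel h (n + 1)
    have h1 := one_lt_cq h n
    have h2 := one_lt_cq h (n + 1)
    have hd : 1 ≤ cfDigit x (n + 1) := by
      rw [cfDigit_eq, Int.le_floor]; push_cast; linarith
    obtain ⟨d, hd'⟩ := Int.eq_ofNat_of_zero_le (by omega : 0 ≤ cfDigit x (n + 1))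
    have hd1 : 1 ≤ d := by omega
    rw [hd'] at hr
    refine ⟨A * d + B, A, C * d + D, C, ?_, by nlinarith, by nlinarith, ?_⟩
    · push_cast
      have e : (A * (d : ℤ) + B) * (C : ℤ) - A * ((C : ℤ) * d + D) = -(A * D - B * C) := by ring
      rw [e, neg_sq]; exact hdet
    · push_cast at hr ⊢
      have e1 : ((C : ℝ) * d + D) * cq x (n + 1 + 1) + C
          = (C * cq x (n + 1) + D) * cq x (n + 1 + 1) := by
        linear_combination (-(C : ℝ)) * hr
      have e2 : ((A : ℝ) * d + B) * cq x (n + 1 + 1) + A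
          = (A * cq x (n + 1) + B) * cq x (n + 1 + 1) := by
        linear_combination (-(A : ℝ)) * hr
      rw [e1, e2, mul_right_comm, hrel]

/-- Moebius relation along a word. -/
lemma word_rel {x : ℝ} {k : ℕ} (h : ∀ i, 0 < cfDigit x (k + i)) (u : List ℕ) (m : ℕ)
    (hu : ∀ (i : ℕ) (hi : i < u.length), cfDigit x (m + i) = ((u[i] : ℕ) : ℤ)) :
    (((cfMat u 1 0 : ℕ) : ℝ) * cq x (m + u.length) + (cfMat u 1 1 : ℕ)) * cq x m
      = (cfMat u 0 0 : ℕ) * cq x (m + u.length) + (cfMat u 0 1 : ℕ) := by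
  induction u generalizing m with
  | nil => simp [cfMat_nil]
  | cons a l ih =>
    have h0 := hu 0 (by simp)
    simp only [Nat.add_zero, List.getElem_cons_zero] at h0
    have hr := cq_rel h m
    rw [h0] at hr
    have hi := ih (m + 1) (fun i hi => by
      have := hu (i + 1) (by simp; omega)
      rw [List.getElem_cons_succ] at this
      rw [← this]; congr 1; omega)
    have e : m + (a :: l).length = m + 1 + l.length := by simp; omega
    rw [e, cfMat_cons_00, cfMat_cons_01, cfMat_cons_10, cfMat_cons_11]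
    set y := cq x (m + 1 + l.length)
    have hx1 : 1 < cq x (m + 1) := one_lt_cq h m
    have hx0 : cq x (m + 1) ≠ 0 := by linarith
    push_cast at hr ⊢
    apply mul_right_cancel₀ hx0
    calc ((cfMat l 0 0 : ℝ) * y + (cfMat l 0 1)) * cq x m * cq x (m + 1)
        = ((cfMat l 0 0 : ℝ) * y + (cfMat l 0 1)) * (cq x m * cq x (m + 1)) := by ring
      _ = ((cfMat l 0 0 : ℝ) * y + (cfMat l 0 1)) * (a * cq x (m + 1) + 1) := by rw [hr]
      _ = _ := by linear_combination (-1 : ℝ) * hi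

lemma det_cfMat (u : List ℕ) :
    (((cfMat u 0 0 : ℕ) : ℤ) * (cfMat u 1 1 : ℕ) - (cfMat u 0 1 : ℕ) * (cfMat u 1 0 : ℕ)) ^ 2 = 1 := by
  induction u with
  | nil => simp [cfMat_nil]
  | cons a l ih =>
    rw [cfMat_cons_00, cfMat_cons_01, cfMat_cons_10, cfMat_cons_11]
    push_cast
    have e : ((a : ℤ) * cfMat l 0 0 + cfMat l 1 0) * cfMat l 0 1 - (a * cfMat l 0 1 + cfMat l 1 1) * cfMat l 0 0
        = -((cfMat l 0 0 : ℤ) * cfMat l 1 1 - cfMat l 0 1 * cfMat l 1 0) := by ring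
    rw [e, neg_sq]; exact ih

/-- Approximation property. -/
lemma approx {α ξ : ℝ} {g00 g01 : ℤ} {g10 g11 : ℕ} (hdet : (g00 * g11 - g01 * g10) ^ 2 = 1)
    (hξ : 1 ≤ ξ) (hrel : ((g10 : ℝ) * ξ + g11) * α = g00 * ξ + g01) (h10 : 0 < g10) (x1 x2 : ℕ) :
    nd (((g10 * x1 + g11 * x2 : ℕ) : ℝ) * α) ≤ (x1 + x2) / g10 := by
  have hpos : (0 : ℝ) < (g10 : ℝ) * ξ + g11 := by positivity
  have h10' : (0 : ℝ) < g10 := by exact_mod_cast h10
  refine (nd_le _ (g00 * x1 + g01 * x2)).trans ?_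
  have key : ((((g10 * x1 + g11 * x2 : ℕ) : ℝ) * α) - ((g00 * x1 + g01 * x2 : ℤ) : ℝ)) * ((g10 : ℝ) * ξ + g11)
      = ((g00 * g11 - g01 * g10 : ℤ) : ℝ) * (x2 * ξ - x1) := by
    push_cast
    linear_combination ((g10 : ℝ) * x1 + g11 * x2) * hrel
  have habs : |((g00 * g11 - g01 * g10 : ℤ) : ℝ)| = 1 := by
    have h2 : (((g00 * g11 - g01 * g10 : ℤ) : ℝ)) ^ 2 = 1 := by exact_mod_cast hdet
    exact (pow_eq_one_iff_of_nonneg (abs_nonneg _) two_ne_zero).mp (by rw [sq_abs]; exact h2)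
  have h3 : |((((g10 * x1 + g11 * x2 : ℕ) : ℝ) * α) - ((g00 * x1 + g01 * x2 : ℤ) : ℝ))| * ((g10 : ℝ) * ξ + g11)
      = |(x2 : ℝ) * ξ - x1| := by
    rw [← abs_of_pos hpos, ← abs_mul, key, abs_mul, habs, one_mul]
  have h4 : |(x2 : ℝ) * ξ - x1| ≤ x2 * ξ + x1 := by
    rw [abs_le]; constructor <;> nlinarith [Nat.cast_nonneg (α := ℝ) x1, Nat.cast_nonneg (α := ℝ) x2]
  rw [le_div_iff₀ h10']
  have hx1 : (0 : ℝ) ≤ x1 := Nat.cast_nonneg _
  have hx2 : (0 : ℝ) ≤ x2 := Nat.cast_nonneg _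
  set z := |((((g10 * x1 + g11 * x2 : ℕ) : ℝ) * α) - ((g00 * x1 + g01 * x2 : ℤ) : ℝ))| with hz
  have hz0 : 0 ≤ z := abs_nonneg _
  have h5 : z * (g10 * ξ) ≤ x2 * ξ + x1 := by
    have : 0 ≤ z * (g11 : ℝ) := by positivity
    nlinarith
  have h6 : z * g10 * ξ ≤ (x1 + x2) * ξ := by nlinarith
  exact le_of_mul_le_mul_right h6 (by linarith)

end Pool.Agent.H2.Sturm
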