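import Mathlib
import Pool.Agent.H2.Sturm.CF

set_option autoImplicit false

namespace Pool.Agent.H2.Sturm

lemma mech_mem (θ ρ : ℝ) (n : ℕ) : mech θ ρ n = ⌊θ⌋ ∨ mech θ ρ n = ⌊θ⌋ + 1 := by
  unfold mech
  have e : ((n + 1 : ℕ) : ℝ) * θ + ρ = ((n : ℝ) * θ + ρ) + θ := by push_cast; ring
  rw [e]
  have h1 := Int.le_floor_add ((n : ℝ) * θ + ρ) θ
  have h2 := Int.le_floor_add_floor ((n : ℝ) * θ + ρ) θ
  omega

/-- Size of the first `n` words of the coding of a mechanical word. -/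
noncomputable def S (W : ℤ → List ℕ) (θ ρ : ℝ) (n : ℕ) : ℕ := siz (cat (fun j => W (mech θ ρ j)) n)

lemma S_add_le {W : ℤ → List ℕ} (hp : ∀ a, ∀ x ∈ W a, 0 < x) (θ ρ : ℝ) (n m : ℕ) :
    S W θ ρ (n + m) ≤ 2 * (S W θ ρ n * S W θ (ρ + n * θ) m) := by
  unfold S
  rw [cat_add]
  have e : (fun j => W (mech θ ρ (n + j))) = (fun j => W (mech θ (ρ + n * θ) j)) := by
    funext j; rw [mech_shift]
  rw [e]
  exact siz_append_le (cat_mem (fun j => hp _) n) (cat_mem (fun j => hp _) m)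

lemma S_add_ge (W : ℤ → List ℕ) (θ ρ : ℝ) (n m : ℕ) :
    S W θ ρ n * S W θ (ρ + n * θ) m ≤ S W θ ρ (n + m) := by
  unfold S
  rw [cat_add]
  have e : (fun j => W (mech θ ρ (n + j))) = (fun j => W (mech θ (ρ + n * θ) j)) := by
    funext j; rw [mech_shift]
  rw [e]
  exact siz_append_ge _ _

lemma S_pos {W : ℤ → List ℕ} (hp : ∀ a, ∀ x ∈ W a, 0 < x) (θ ρ : ℝ) (n : ℕ) : 1 ≤ S W θ ρ n :=
  siz_pos (cat_mem (fun j => hp _) n)

lemma S_growth {W : ℤ → List ℕ} (hp : ∀ a, ∀ x ∈ W a, 0 < x) (hne : ∀ a, W a ≠ []) (θ ρ : ℝ) (n : ℕ) :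
    2 ^ (n / 2) ≤ S W θ ρ n := by
  refine le_trans ?_ (siz_growth _ (cat_mem (fun j => hp _) n))
  apply Nat.pow_le_pow_right (by norm_num)
  exact Nat.div_le_div_right (cat_length (fun j => hne _) n)

lemma S_compare {θ : ℝ} (hθ : Irrational θ) {W : ℤ → List ℕ} (hp : ∀ a, ∀ x ∈ W a, 0 < x)
    (hne : ∀ a, W a ≠ []) {ε : ℝ} (hε : 0 < ε) :
    ∃ C : ℝ, 1 ≤ C ∧ ∀ (ρ ρ' : ℝ) (n : ℕ), (S W θ ρ n : ℝ) ≤ C * Real.exp (ε * n) * (S W θ ρ' n : ℝ) := by
  set κ : ℕ := max (cfMat (W ⌊θ⌋) 0 0) (cfMat (W (⌊θ⌋ + 1)) 0 0) with hκ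
  have hκ1 : 1 ≤ κ := le_trans (cfMat_ineq _ (hp _)).1 (le_max_left _ _)
  have hκb : ∀ ρ j, cfMat (W (mech θ ρ j)) 0 0 ≤ κ := by
    intro ρ j
    rcases mech_mem θ ρ j with h | h <;> rw [h]
    · exact le_max_left _ _
    · exact le_max_right _ _
  set L : ℝ := Real.log (2 * κ) with hL
  have h2κ : (1 : ℝ) ≤ 2 * κ := by
    have : (1 : ℝ) ≤ κ := by exact_mod_cast hκ1
    linarith
  have hL0 : 0 ≤ L := Real.log_nonneg h2κ
  obtain ⟨T, hT⟩ := exists_nat_gt (2 * L / ε)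
  have hT0' : (0 : ℝ) < T := lt_of_le_of_lt (by positivity) hT
  have hT0 : 0 < T := by exact_mod_cast hT0'
  obtain ⟨K, hK⟩ := mech_close hθ hT0
  have hpow : ∀ m : ℕ, ((2 * κ : ℕ) : ℝ) ^ m = Real.exp (m * L) := by
    intro m
    rw [Real.exp_nat_mul, hL, Real.exp_log (by linarith)]
    push_cast
    rfl
  -- crude growth bound
  have crude : ∀ (ρ : ℝ) (n : ℕ), S W θ ρ n ≤ (2 * κ) ^ n := by
    intro ρ n
    induction n with
    | zero => simp [S, cat_zero, siz, cfMat_nil]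
    | succ n ih =>
      unfold S at ih ⊢
      rw [cat_succ]
      refine (siz_append_le (cat_mem (fun j => hp _) n) (hp _)).trans ?_
      rw [pow_succ]
      have h1 : siz (W (mech θ ρ n)) ≤ κ := hκb ρ n
      calc 2 * (siz (cat (fun j => W (mech θ ρ j)) n) * siz (W (mech θ ρ n)))
          ≤ 2 * ((2 * κ) ^ n * κ) := Nat.mul_le_mul_left _ (Nat.mul_le_mul ih h1)
        _ = _ := by ring
  refine ⟨2 * Real.exp ((K + 2 : ℕ) * L), ?_, ?_⟩
  · have : (1 : ℝ) ≤ Real.exp ((K + 2 : ℕ) * L) := Real.one_le_exp (by positivity)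
    linarith
  intro ρ ρ' n
  obtain ⟨k, hk, p, hpe, hcount⟩ := hK ρ ρ'
  have hbound : (S W θ ρ n) ≤ 2 * (2 * κ) ^ (K + 2 * (n / T + 1)) * S W θ ρ' n := by
    have hS' := S_pos hp θ ρ' n
    have h2k : 1 ≤ 2 * κ := by omega
    rcases Nat.lt_or_ge n k with hnk | hnk
    · calc S W θ ρ n ≤ (2 * κ) ^ n := crude ρ n
        _ ≤ (2 * κ) ^ (K + 2 * (n / T + 1)) := Nat.pow_le_pow_right h2k (by omega)
        _ ≤ 2 * (2 * κ) ^ (K + 2 * (n / T + 1)) * 1 := by omega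
        _ ≤ _ := Nat.mul_le_mul_left _ hS'
    · obtain ⟨m, rfl⟩ : ∃ m, n = k + m := ⟨n - k, by omega⟩
      have h1 := S_add_le hp θ ρ k m
      have h2 : S W θ (ρ + k * θ) m ≤ (2 * κ) ^ (2 * ((k + m) / T + 1)) * S W θ ρ' m := by
        have hc := (compare_count (w := fun j => W (mech θ (ρ + k * θ) j)) (w' := fun j => W (mech θ ρ' j))
          (κ := κ) (fun j => hne _) (fun j => hp _) (fun j => hp _) (fun j => hκb _ _) (fun j => p j = true)
          (fun j hj => by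
            have := hpe j hj
            rw [mech_shift] at this
            simp only [this]) hκ1 m).1
        refine hc.trans (Nat.mul_le_mul_right _ (Nat.pow_le_pow_right h2k ?_))
        refine (hcount m).trans ?_
        have : m / T ≤ (k + m) / T := Nat.div_le_div_right (by omega)
        omega
      have h3 : S W θ ρ' m ≤ S W θ ρ' (k + m) := by
        have := S_add_ge W θ ρ' m k
        have h4 := S_pos hp θ (ρ' + m * θ) k
        rw [Nat.add_comm m k] at this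
        nlinarith
      have h5 : S W θ ρ k ≤ (2 * κ) ^ K := (crude ρ k).trans (Nat.pow_le_pow_right h2k hk)
      calc S W θ ρ (k + m) ≤ 2 * (S W θ ρ k * S W θ (ρ + k * θ) m) := h1
        _ ≤ 2 * ((2 * κ) ^ K * ((2 * κ) ^ (2 * ((k + m) / T + 1)) * S W θ ρ' (k + m))) :=
            Nat.mul_le_mul_left _ (Nat.mul_le_mul h5 (h2.trans (Nat.mul_le_mul_left _ h3)))
        _ = _ := by rw [pow_add]; ring
  have hb' : (S W θ ρ n : ℝ) ≤ 2 * ((2 * κ : ℕ) : ℝ) ^ (K + 2 * (n / T + 1)) * S W θ ρ' n := by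
    exact_mod_cast hbound
  refine hb'.trans ?_
  rw [hpow]
  apply mul_le_mul_of_nonneg_right _ (Nat.cast_nonneg _)
  rw [mul_assoc, ← Real.exp_add]
  apply mul_le_mul_of_nonneg_left _ (by norm_num)
  apply Real.exp_le_exp.mpr
  have hdiv : ((n / T : ℕ) : ℝ) ≤ n / T := Nat.cast_div_le
  have h6 : 2 * (n / T : ℝ) * L ≤ ε * n := by
    rw [div_lt_iff₀ hε] at hT
    have : 2 * (n / T : ℝ) * L = n * (2 * L) / T := by ring
    rw [this, div_le_iff₀ hT0']
    have hn : (0 : ℝ) ≤ n := Nat.cast_nonneg _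
    nlinarith
  push_cast
  nlinarith

/-- A word read in `α` whose mirror image is read in `β` gives a good common denominator. -/
lemma block {α β : ℝ} {k l : ℕ} (hposα : ∀ i, 0 < cfDigit α (k + 1 + i))
    (hposβ : ∀ i, 0 < cfDigit β (l + 1 + i)) (u v : List ℕ) (hu : ∀ x ∈ u, 0 < x) (hv : ∀ x ∈ v, 0 < x)
    (hdα : ∀ (i : ℕ) (hi : i < u.length), cfDigit α (k + 1 + i) = ((u[i] : ℕ) : ℤ))
    (hdβ : ∀ (i : ℕ) (hi : i < (v ++ u.reverse).length),
      cfDigit β (l + 1 + i) = (((v ++ u.reverse)[i] : ℕ) : ℤ))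
    {A B A' B' : ℤ} {a1 a2 c1 c2 : ℕ} (hdetα : (A * a2 - B * a1) ^ 2 = 1) (ha1 : 1 ≤ a1) (ha2 : a2 ≤ a1)
    (hrelα : ((a1 : ℝ) * cq α (k + 1) + a2) * α = A * cq α (k + 1) + B)
    (hdetβ : (A' * c2 - B' * c1) ^ 2 = 1) (hc1 : 1 ≤ c1) (hc2 : c2 ≤ c1)
    (hrelβ : ((c1 : ℝ) * cq β (l + 1) + c2) * β = A' * cq β (l + 1) + B') :
    ∃ q b1 : ℕ, 1 ≤ b1 ∧ b1 ≤ 2 * (c1 * siz v) ∧ siz u ≤ q ∧ q ≤ 4 * (a1 * b1 * siz u) ∧
      nd (q * α) ≤ 2 * b1 / (a1 * siz u) ∧ nd (q * β) ≤ 2 * a1 / (b1 * siz u) := by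
  obtain ⟨u1, u2, u3, u4, u5⟩ := cfMat_ineq u hu
  obtain ⟨v1, v2, v3, v4, v5⟩ := cfMat_ineq v hv
  set b1 : ℕ := c1 * cfMat v 0 0 + c2 * cfMat v 1 0 with hb1
  set b2 : ℕ := c1 * cfMat v 0 1 + c2 * cfMat v 1 1 with hb2
  have hb1pos : 1 ≤ b1 := by nlinarith [Nat.zero_le (c2 * cfMat v 1 0)]
  have hb1le : b1 ≤ 2 * (c1 * cfMat v 0 0) := by
    have := Nat.mul_le_mul hc2 v3
    omega
  have hb2le : b2 ≤ b1 := by
    obtain ⟨d, rfl⟩ : ∃ d, c1 = c2 + d := ⟨c1 - c2, by omega⟩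
    have e1 := Nat.mul_le_mul_left c2 v5
    have e2 := Nat.mul_le_mul_left d v2
    rw [hb1, hb2]
    nlinarith
  set q : ℕ := (a1 * cfMat u 0 0 + a2 * cfMat u 1 0) * b1 + (a1 * cfMat u 0 1 + a2 * cfMat u 1 1) * b2 with hq
  have hq' : q = (b1 * cfMat u 0 0 + b2 * cfMat u 0 1) * a1 + (b1 * cfMat u 1 0 + b2 * cfMat u 1 1) * a2 := by
    rw [hq]; ring
  refine ⟨q, b1, hb1pos, hb1le, ?_, ?_, ?_, ?_⟩
  · have h1 : cfMat u 0 0 * 1 ≤ cfMat u 0 0 * (a1 * b1) := Nat.mul_le_mul_left _ (Nat.mul_pos ha1 hb1pos)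
    unfold siz
    rw [hq]
    nlinarith [Nat.zero_le (a2 * cfMat u 1 0 * b1), Nat.zero_le ((a1 * cfMat u 0 1 + a2 * cfMat u 1 1) * b2)]
  · unfold siz
    have h1 : a2 * cfMat u 1 0 ≤ a1 * cfMat u 0 0 := Nat.mul_le_mul ha2 u3
    have h2 : a1 * cfMat u 0 1 ≤ a1 * cfMat u 0 0 := Nat.mul_le_mul_left _ u2
    have h3 : a2 * cfMat u 1 1 ≤ a1 * cfMat u 0 0 := Nat.mul_le_mul ha2 u4
    calc q ≤ (2 * (a1 * cfMat u 0 0)) * b1 + (2 * (a1 * cfMat u 0 0)) * b1 := by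
          rw [hq]
          exact Nat.add_le_add (Nat.mul_le_mul_right _ (by omega)) (Nat.mul_le_mul (by omega) hb2le)
      _ = _ := by ring
  · have hw := word_rel hposα u (k + 1) hdα
    set y := cq α (k + 1 + u.length) with hy
    set x := cq α (k + 1) with hx
    have hy1 : 1 ≤ y := by
      have := one_lt_cq hposα (k + u.length)
      have e : k + u.length + 1 = k + 1 + u.length := by omega
      rw [e] at this
      exact this.le
    have hdet : ((A * cfMat u 0 0 + B * cfMat u 1 0) * ((a1 * cfMat u 0 1 + a2 * cfMat u 1 1 : ℕ) : ℤ)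
        - (A * cfMat u 0 1 + B * cfMat u 1 1) * ((a1 * cfMat u 0 0 + a2 * cfMat u 1 0 : ℕ) : ℤ)) ^ 2 = 1 := by
      push_cast
      have e : (A * (cfMat u 0 0 : ℤ) + B * cfMat u 1 0) * ((a1 : ℤ) * cfMat u 0 1 + a2 * cfMat u 1 1)
        - (A * cfMat u 0 1 + B * cfMat u 1 1) * ((a1 : ℤ) * cfMat u 0 0 + a2 * cfMat u 1 0)
        = (A * a2 - B * a1) * ((cfMat u 0 0 : ℤ) * cfMat u 1 1 - cfMat u 0 1 * cfMat u 1 0) := by ring
      rw [e, mul_pow, hdetα, det_cfMat, one_mul]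
    have hrel : (((a1 * cfMat u 0 0 + a2 * cfMat u 1 0 : ℕ) : ℝ) * y + (a1 * cfMat u 0 1 + a2 * cfMat u 1 1 : ℕ)) * α
        = ((A * cfMat u 0 0 + B * cfMat u 1 0 : ℤ) : ℝ) * y + ((A * cfMat u 0 1 + B * cfMat u 1 1 : ℤ) : ℝ) := by
      push_cast
      linear_combination ((cfMat u 1 0 : ℝ) * y + cfMat u 1 1) * hrelα + (A - a1 * α) * hw
    have h10 : 0 < a1 * cfMat u 0 0 + a2 * cfMat u 1 0 := by
      have := Nat.mul_pos ha1 u1
      omega
    have hfin := approx hdet hy1 hrel h10 b1 b2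
    rw [← hq] at hfin
    refine hfin.trans ?_
    unfold siz
    have hden : (0 : ℝ) < a1 * cfMat u 0 0 := by
      have : 0 < a1 * cfMat u 0 0 := Nat.mul_pos ha1 u1
      exact_mod_cast this
    have hden2 : (a1 * cfMat u 0 0 : ℝ) ≤ ((a1 * cfMat u 0 0 + a2 * cfMat u 1 0 : ℕ) : ℝ) := by
      push_cast
      have : (0 : ℝ) ≤ a2 * cfMat u 1 0 := by positivity
      linarith
    have hb2r : (b2 : ℝ) ≤ b1 := by exact_mod_cast hb2le
    apply div_le_div₀ (by positivity) (by linarith) hden hden2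
  · have hw := word_rel hposβ (v ++ u.reverse) (l + 1) hdβ
    set y := cq β (l + 1 + (v ++ u.reverse).length) with hy
    set x := cq β (l + 1) with hx
    have hy1 : 1 ≤ y := by
      have := one_lt_cq hposβ (l + (v ++ u.reverse).length)
      have e : l + (v ++ u.reverse).length + 1 = l + 1 + (v ++ u.reverse).length := by omega
      rw [e] at this
      exact this.le
    have Z00 : cfMat (v ++ u.reverse) 0 0 = cfMat v 0 0 * cfMat u 0 0 + cfMat v 0 1 * cfMat u 0 1 := by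
      rw [cfMat_append, cfMat_reverse, Matrix.mul_apply, Fin.sum_univ_two]; rfl
    have Z01 : cfMat (v ++ u.reverse) 0 1 = cfMat v 0 0 * cfMat u 1 0 + cfMat v 0 1 * cfMat u 1 1 := by
      rw [cfMat_append, cfMat_reverse, Matrix.mul_apply, Fin.sum_univ_two]; rfl
    have Z10 : cfMat (v ++ u.reverse) 1 0 = cfMat v 1 0 * cfMat u 0 0 + cfMat v 1 1 * cfMat u 0 1 := by
      rw [cfMat_append, cfMat_reverse, Matrix.mul_apply, Fin.sum_univ_two]; rfl
    have Z11 : cfMat (v ++ u.reverse) 1 1 = cfMat v 1 0 * cfMat u 1 0 + cfMat v 1 1 * cfMat u 1 1 := by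
      rw [cfMat_append, cfMat_reverse, Matrix.mul_apply, Fin.sum_univ_two]; rfl
    have hdetZ := det_cfMat (v ++ u.reverse)
    set z00 := cfMat (v ++ u.reverse) 0 0
    set z01 := cfMat (v ++ u.reverse) 0 1
    set z10 := cfMat (v ++ u.reverse) 1 0
    set z11 := cfMat (v ++ u.reverse) 1 1
    have hdet : ((A' * z00 + B' * z10) * ((c1 * z01 + c2 * z11 : ℕ) : ℤ)
        - (A' * z01 + B' * z11) * ((c1 * z00 + c2 * z10 : ℕ) : ℤ)) ^ 2 = 1 := by
      push_cast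
      have e : (A' * (z00 : ℤ) + B' * z10) * ((c1 : ℤ) * z01 + c2 * z11)
        - (A' * z01 + B' * z11) * ((c1 : ℤ) * z00 + c2 * z10)
        = (A' * c2 - B' * c1) * ((z00 : ℤ) * z11 - z01 * z10) := by ring
      rw [e, mul_pow, hdetβ, hdetZ, one_mul]
    have hrel : (((c1 * z00 + c2 * z10 : ℕ) : ℝ) * y + (c1 * z01 + c2 * z11 : ℕ)) * β
        = ((A' * z00 + B' * z10 : ℤ) : ℝ) * y + ((A' * z01 + B' * z11 : ℤ) : ℝ) := by
      push_cast
      linear_combination ((z10 : ℝ) * y + z11) * hrelβ + (A' - c1 * β) * hw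
    have e10 : c1 * z00 + c2 * z10 = b1 * cfMat u 0 0 + b2 * cfMat u 0 1 := by
      rw [Z00, Z10, hb1, hb2]; ring
    have e11 : c1 * z01 + c2 * z11 = b1 * cfMat u 1 0 + b2 * cfMat u 1 1 := by
      rw [Z01, Z11, hb1, hb2]; ring
    have hbu : 0 < b1 * cfMat u 0 0 := Nat.mul_pos hb1pos u1
    have h10 : 0 < c1 * z00 + c2 * z10 := by
      rw [e10]; omega
    have hfin := approx hdet hy1 hrel h10 a1 a2
    rw [e10, e11, ← hq'] at hfin
    refine hfin.trans ?_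
    unfold siz
    have hden : (0 : ℝ) < b1 * cfMat u 0 0 := by exact_mod_cast hbu
    have hden2 : (b1 * cfMat u 0 0 : ℝ) ≤ ((b1 * cfMat u 0 0 + b2 * cfMat u 0 1 : ℕ) : ℝ) := by
      push_cast
      have : (0 : ℝ) ≤ b2 * cfMat u 0 1 := by positivity
      linarith
    have ha2r : (a2 : ℝ) ≤ a1 := by exact_mod_cast ha2
    apply div_le_div₀ (by positivity) (by linarith) hden hden2

lemma exp_half_le (m : ℕ) {s : ℕ} (h : 2 ^ (m / 2) ≤ s) :
    Real.exp (((m : ℝ) - 1) / 2 * Real.log 2) ≤ s := by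
  have h1 : ((2 : ℝ)) ^ (m / 2) ≤ s := by exact_mod_cast h
  refine le_trans ?_ h1
  have e2 : ((2 : ℝ)) ^ (m / 2) = Real.exp (((m / 2 : ℕ) : ℝ) * Real.log 2) := by
    rw [Real.exp_nat_mul, Real.exp_log (by norm_num)]
  rw [e2]
  apply Real.exp_le_exp.mpr
  apply mul_le_mul_of_nonneg_right _ (Real.log_nonneg (by norm_num))
  have h2 : m ≤ 2 * (m / 2) + 1 := by omega
  have h3 : (m : ℝ) ≤ 2 * ((m / 2 : ℕ) : ℝ) + 1 := by exact_mod_cast h2
  linarith

/-- Elementary inequality used at the end. -/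
lemma final_ineq {c L2 lC lv lu κ0 l4 r n : ℝ} (hc0 : 0 ≤ c) (hc : c < 1 / 3) (hL2 : 0 < L2) (hlC0 : 0 ≤ lC)
    (hr0 : 0 ≤ r) (hnr : 2 * r ≤ n) (hlv : (r - 1) / 2 * L2 ≤ lv)
    (hlu : 2 * (lv - (1 - 3 * c) * L2 / 8 * r - lC) + (n - 2 * r - 1) / 2 * L2 ≤ lu) :
    (1 + c) * (κ0 + lv + lu) + (l4 - 2 * lu) ≤
      (1 + c) * κ0 + l4 + 2 * lC + L2 - (1 - 3 * c) * (L2 / 8) * n := by
  have ht : 0 < 1 - 3 * c := by linarith
  have k1 : (1 - c) * (2 * (lv - (1 - 3 * c) * L2 / 8 * r - lC) + (n - 2 * r - 1) / 2 * L2) ≤ (1 - c) * lu :=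
    mul_le_mul_of_nonneg_left hlu (by linarith)
  have k2 : (1 - 3 * c) * ((r - 1) / 2 * L2) ≤ (1 - 3 * c) * lv :=
    mul_le_mul_of_nonneg_left hlv ht.le
  have kr : 0 ≤ (1 - 3 * c) * (L2 * r) := mul_nonneg ht.le (mul_nonneg hL2.le hr0)
  have kcr : 0 ≤ c * ((1 - 3 * c) * (L2 * r)) := mul_nonneg hc0 kr
  have k4 : 0 ≤ c * lC := mul_nonneg hc0 hlC0
  have kn : 0 ≤ L2 * (n - 2 * r) := mul_nonneg hL2.le (by linarith)
  have k5 : 0 ≤ c * (L2 * (n - 2 * r)) := mul_nonneg hc0 kn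
  have k6 : 0 ≤ c * L2 := mul_nonneg hc0 hL2.le
  have k8 : 0 ≤ (1 - 3 * c) * (L2 * (n - 2 * r)) := mul_nonneg ht.le kn
  nlinarith

lemma cat_reverse (w : ℕ → List ℕ) (n : ℕ) :
    (cat w n).reverse = cat (fun j => (w (n - 1 - j)).reverse) n := by
  induction n with
  | zero => rfl
  | succ n ih =>
    rw [cat_succ, List.reverse_append, ih]
    have h1 : cat (fun j => (w (n + 1 - 1 - j)).reverse) (n + 1)
        = cat (fun j => (w (n + 1 - 1 - j)).reverse) (1 + n) := by rw [Nat.add_comm]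
    rw [h1, cat_add]
    have h2 : cat (fun j => (w (n + 1 - 1 - j)).reverse) 1 = (w n).reverse := by
      rw [show (1 : ℕ) = 0 + 1 from rfl, cat_succ, cat_zero, List.nil_append]
      simp
    rw [h2]
    congr 1
    apply cat_congr
    intro j _
    congr 2
    omega

lemma siz_reverse (u : List ℕ) : siz u.reverse = siz u := by
  unfold siz; rw [cfMat_reverse]; rfl

set_option maxHeartbeats 1600000 in
/-- The main construction: a mirrored block produces a good denominator. -/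
lemma core {θ : ℝ} (hθ : Irrational θ) {W W' : ℤ → List ℕ} (hW' : ∀ a, W' a = (W a).reverse)
    (hp : ∀ a, ∀ x ∈ W a, 0 < x) (hne : ∀ a, W a ≠ []) {α β ρ ρ' : ℝ} {k l : ℕ}
    (hα : CFTail α (k + 1) (fun j => W (mech θ ρ j)))
    (hβ : CFTail β (l + 1) (fun j => W' (mech θ ρ' j)))
    {c : ℝ} (hc0 : 0 ≤ c) (hc : c < 1 / 3) :
    ∃ K : ℝ, ∀ n r : ℕ, 2 * r ≤ n → (∀ i, i < n → mech θ ρ i = mech θ ρ' (r + (n - 1 - i))) →
      ∃ q : ℕ, 2 ^ (n / 2) ≤ q ∧
        (q : ℝ) ^ (1 + c) * nd (q * α) * nd (q * β) ≤ Real.exp (K - (1 - 3 * c) * (Real.log 2 / 8) * n) := by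
  have hp' : ∀ a, ∀ x ∈ W' a, 0 < x := by
    intro a x hx; rw [hW', List.mem_reverse] at hx; exact hp a x hx
  have hne' : ∀ a, W' a ≠ [] := by
    intro a h; rw [hW', List.reverse_eq_nil_iff] at h; exact hne a h
  -- positivity of the digits
  have digpos : ∀ {x : ℝ} {m : ℕ} {w : ℕ → List ℕ}, (∀ j, w j ≠ []) → (∀ j, ∀ y ∈ w j, 0 < y) →
      CFTail x m w → ∀ i, 0 < cfDigit x (m + i) := by
    intro x m w h1 h2 h3 i
    have hi : i < ((List.range (i + 1)).flatMap w).length := lt_of_lt_of_le (Nat.lt_succ_self i) (cat_length h1 (i + 1))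
    rw [h3 (i + 1) i hi]
    have := cat_mem h2 (i + 1) _ (List.getElem_mem hi)
    exact_mod_cast this
  have hposα := digpos (fun j => hne _) (fun j => hp _) hα
  have hposβ := digpos (fun j => hne' _) (fun j => hp' _) hβ
  obtain ⟨A, B, a1, a2, hdetα, ha1, ha2, hrelα⟩ := state_exists hposα k
  obtain ⟨A', B', c1, c2, hdetβ, hc1, hc2, hrelβ⟩ := state_exists hposβ l
  have hL2 : 0 < Real.log 2 := Real.log_pos (by norm_num)
  set L2 : ℝ := Real.log 2 with hL2def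
  set ε : ℝ := (1 - 3 * c) * L2 / 8 with hε
  have hεpos : 0 < ε := by
    have : 0 < 1 - 3 * c := by linarith
    positivity
  obtain ⟨C0, hC0, hcomp⟩ := S_compare hθ hp' hne' hεpos
  set lC : ℝ := Real.log C0 with hlC
  have hlC0 : 0 ≤ lC := Real.log_nonneg hC0
  set κ0 : ℝ := Real.log (8 * a1 * c1) with hκ0
  refine ⟨(1 + c) * κ0 + Real.log 4 + 2 * lC + L2, ?_⟩
  intro n r hnr hmir
  set u := cat (fun j => W (mech θ ρ j)) n with hu
  set v := cat (fun j => W' (mech θ ρ' j)) r with hv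
  have hup : ∀ x ∈ u, 0 < x := cat_mem (fun j => hp _) n
  have hvp : ∀ x ∈ v, 0 < x := cat_mem (fun j => hp' _) r
  have hurev : u.reverse = cat (fun j => W' (mech θ ρ' (r + j))) n := by
    rw [hu, cat_reverse]
    apply cat_congr
    intro j hj
    rw [hW', hmir (n - 1 - j) (by omega)]
    congr 4
    omega
  have hvu : v ++ u.reverse = cat (fun j => W' (mech θ ρ' j)) (r + n) := by
    rw [hurev, cat_add]
  obtain ⟨q, b1, hb1, hb1le, hqlow, hqup, hndα, hndβ⟩ := block hposα hposβ u v hup hvp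
    (fun i hi => hα n i hi) (fun i hi => by
      have h1 : i < ((List.range (r + n)).flatMap (fun j => W' (mech θ ρ' j))).length := by
        have : i < (cat (fun j => W' (mech θ ρ' j)) (r + n)).length := by rw [← hvu]; exact hi
        exact this
      rw [hβ (r + n) i h1]
      congr 1
      have : (List.range (r + n)).flatMap (fun j => W' (mech θ ρ' j)) = v ++ u.reverse := by
        rw [hvu]; rfl
      simp only [this])
    hdetα ha1 ha2 hrelα hdetβ hc1 hc2 hrelβ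
  have hgu : 2 ^ (n / 2) ≤ siz u := S_growth hp hne θ ρ n
  have hgv : 2 ^ (r / 2) ≤ siz v := S_growth hp' hne' θ ρ' r
  have hsu1 : 1 ≤ siz u := siz_pos hup
  have hsv1 : 1 ≤ siz v := siz_pos hvp
  refine ⟨q, hgu.trans hqlow, ?_⟩
  -- logs
  have su0 : (0 : ℝ) < siz u := by exact_mod_cast hsu1
  have sv0 : (0 : ℝ) < siz v := by exact_mod_cast hsv1
  set lu : ℝ := Real.log (siz u) with hlu
  set lv : ℝ := Real.log (siz v) with hlv
  have elu : (siz u : ℝ) = Real.exp lu := (Real.exp_log su0).symm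
  have elv : (siz v : ℝ) = Real.exp lv := (Real.exp_log sv0).symm
  have hlv' : ((r : ℝ) - 1) / 2 * L2 ≤ lv := by
    rw [← Real.exp_le_exp, ← elv]
    exact exp_half_le r hgv
  have hlu' : 2 * (lv - ε * r - lC) + ((n : ℝ) - 2 * r - 1) / 2 * L2 ≤ lu := by
    obtain ⟨m, rfl⟩ : ∃ m, n = r + (r + m) := ⟨n - 2 * r, by omega⟩
    have hsu : siz u = S W' θ (ρ' + r * θ) (r + (r + m)) := by
      rw [← siz_reverse, hurev]
      unfold S
      congr 2
      funext j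
      rw [mech_shift]
    have g1 := S_add_ge W' θ (ρ' + r * θ) r (r + m)
    have g2 := S_add_ge W' θ (ρ' + r * θ + r * θ) r m
    have g3 := S_growth hp' hne' θ (ρ' + r * θ + r * θ + r * θ) m
    have c1' := hcomp ρ' (ρ' + r * θ) r
    have c2' := hcomp ρ' (ρ' + r * θ + r * θ) r
    set s1 := S W' θ (ρ' + r * θ) r
    set s2 := S W' θ (ρ' + r * θ + r * θ) r
    set s3 := S W' θ (ρ' + r * θ + r * θ + r * θ) m
    have hprod : s1 * (s2 * s3) ≤ siz u := by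
      rw [hsu]; exact (Nat.mul_le_mul_left _ g2).trans g1
    have hprod' : (s1 : ℝ) * (s2 * s3) ≤ siz u := by exact_mod_cast hprod
    have eC : C0 = Real.exp lC := (Real.exp_log (by linarith)).symm
    have hsvS : (siz v : ℝ) = (S W' θ ρ' r : ℝ) := rfl
    rw [← hsvS, elv, eC, ← Real.exp_add] at c1' c2'
    have b1' : Real.exp (lv - ε * r - lC) ≤ s1 := by
      have : Real.exp (lv - ε * r - lC) = Real.exp lv * (Real.exp (lC + ε * r))⁻¹ := by
        rw [← Real.exp_neg, ← Real.exp_add]; congr 1; ring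
      rw [this, mul_inv_le_iff₀ (Real.exp_pos _), mul_comm]
      exact c1'
    have b2' : Real.exp (lv - ε * r - lC) ≤ s2 := by
      have : Real.exp (lv - ε * r - lC) = Real.exp lv * (Real.exp (lC + ε * r))⁻¹ := by
        rw [← Real.exp_neg, ← Real.exp_add]; congr 1; ring
      rw [this, mul_inv_le_iff₀ (Real.exp_pos _), mul_comm]
      exact c2'
    have b3' : Real.exp (((m : ℝ) - 1) / 2 * L2) ≤ s3 := exp_half_le m g3
    rw [← Real.exp_le_exp, ← elu]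
    refine le_trans ?_ hprod'
    have e3 : Real.exp (2 * (lv - ε * r - lC) + (((r + (r + m) : ℕ) : ℝ) - 2 * r - 1) / 2 * L2)
        = Real.exp (lv - ε * r - lC) * (Real.exp (lv - ε * r - lC) * Real.exp (((m : ℝ) - 1) / 2 * L2)) := by
      rw [← Real.exp_add, ← Real.exp_add]; congr 1; push_cast; ring
    rw [e3]
    have p1 := (Real.exp_pos (lv - ε * r - lC)).le
    have p3 := (Real.exp_pos (((m : ℝ) - 1) / 2 * L2)).le
    exact mul_le_mul b1' (mul_le_mul b2' b3' p3 (Nat.cast_nonneg _)) (mul_nonneg p1 p3) (Nat.cast_nonneg _)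
  -- the upper bound for q
  have ha1' : (1 : ℝ) ≤ a1 := by exact_mod_cast ha1
  have hc1' : (1 : ℝ) ≤ c1 := by exact_mod_cast hc1
  have hb1' : (1 : ℝ) ≤ b1 := by exact_mod_cast hb1
  have hqexp : (q : ℝ) ≤ Real.exp (κ0 + lv + lu) := by
    have h1 : q ≤ 8 * a1 * c1 * siz v * siz u := by
      refine hqup.trans ?_
      have := Nat.mul_le_mul_left (4 * a1 * siz u) hb1le
      calc 4 * (a1 * b1 * siz u) = 4 * a1 * siz u * b1 := by ring
        _ ≤ 4 * a1 * siz u * (2 * (c1 * siz v)) := this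
        _ = _ := by ring
    have h2 : (q : ℝ) ≤ 8 * a1 * c1 * siz v * siz u := by exact_mod_cast h1
    rw [Real.exp_add, Real.exp_add, ← elv, ← elu, hκ0, Real.exp_log (by positivity)]
    exact h2
  have hndprod : nd (q * α) * nd (q * β) ≤ Real.exp (Real.log 4 - 2 * lu) := by
    have h1 : nd (q * α) * nd (q * β) ≤ (2 * b1 / (a1 * siz u)) * (2 * a1 / (b1 * siz u)) :=
      mul_le_mul hndα hndβ (nd_nonneg _) (by positivity)
    refine h1.trans (le_of_eq ?_)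
    have e4 : Real.exp (Real.log 4 - 2 * lu) = 4 / (siz u * siz u : ℝ) := by
      rw [Real.exp_sub, Real.exp_log (by norm_num), two_mul, Real.exp_add, ← elu]
    rw [e4]
    field_simp
    norm_num
  have hq0 : (0 : ℝ) ≤ q := Nat.cast_nonneg _
  have hmain : (q : ℝ) ^ (1 + c) * nd (q * α) * nd (q * β) ≤
      Real.exp ((1 + c) * (κ0 + lv + lu) + (Real.log 4 - 2 * lu)) := by
    rw [mul_assoc, Real.exp_add]
    apply mul_le_mul _ hndprod (mul_nonneg (nd_nonneg _) (nd_nonneg _)) (Real.exp_pos _).le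
    calc (q : ℝ) ^ (1 + c) ≤ (Real.exp (κ0 + lv + lu)) ^ (1 + c) :=
          Real.rpow_le_rpow hq0 hqexp (by linarith)
      _ = Real.exp ((1 + c) * (κ0 + lv + lu)) := by rw [← Real.exp_mul]; congr 1; ring
  refine hmain.trans (Real.exp_le_exp.mpr ?_)
  have hnr' : 2 * (r : ℝ) ≤ n := by exact_mod_cast hnr
  exact final_ineq hc0 hc hL2 hlC0 (Nat.cast_nonneg _) hnr' hlv' hlu'

end Pool.Agent.H2.Sturm
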